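import Pool.Agent.Q131.R4Symm

/-!
# The degree-square Turán number of the strong 4-vertex tournament
-/

namespace Pool.Agent.Results.MP_be36ad_co.DegreeSquare

open Finset

/-- The strong tournament on four vertices, with arcs `01, 12, 23, 30, 02, 13`. -/
def R4 : Digraph (Fin 4) where
  Adj i j := (i, j) ∈ [((0 : Fin 4), (1 : Fin 4)), (1, 2), (2, 3), (3, 0), (0, 2), (1, 3)]

/-- `D` contains a (not necessarily induced) copy of `R4`. -/
def ContainsR4 {V : Type} (D : Digraph V) : Prop :=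
  ∃ f : Fin 4 → V, Function.Injective f ∧ ∀ i j, R4.Adj i j → D.Adj (f i) (f j)

/-- The out-degree. -/
noncomputable def outDegree {V : Type} (D : Digraph V) (v : V) : ℕ := {w | D.Adj v w}.ncard

/-- The possible values of the sum of the squares of the out-degrees of a loopless `R4`-free
digraph on `m` vertices. -/
def values (m : ℕ) : Set ℕ :=
  {s | ∃ D : Digraph (Fin m), (∀ v, ¬ D.Adj v v) ∧ ¬ ContainsR4 D ∧
    s = ∑ v, (outDegree D v) ^ 2}

theorem noR4_of {V : Type} (D : Digraph V) (hl : ∀ v, ¬ D.Adj v v) (h : ¬ ContainsR4 D) :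
    Q131.R4.NoR4 D.Adj := by
  intro w x y z h1 h2 h3 h4 h5 h6
  apply h
  have hne : ∀ a b, D.Adj a b → a ≠ b := by
    rintro a b hab rfl
    exact hl a hab
  refine ⟨![w, x, y, z], ?_, ?_⟩
  · have e1 := hne _ _ h1
    have e2 := hne _ _ h2
    have e3 := hne _ _ h3
    have e4 := hne _ _ h4
    have e5 := hne _ _ h5
    have e6 := hne _ _ h6
    intro i j hij
    fin_cases i <;> fin_cases j <;> simp_all
  · intro i j hij
    simp only [R4, List.mem_cons, Prod.mk.injEq, List.not_mem_nil, or_false] at hij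
    rcases hij with ⟨rfl, rfl⟩ | ⟨rfl, rfl⟩ | ⟨rfl, rfl⟩ | ⟨rfl, rfl⟩ | ⟨rfl, rfl⟩ | ⟨rfl, rfl⟩
    · exact h1
    · exact h2
    · exact h3
    · exact h4
    · exact h5
    · exact h6

theorem of_noR4 {V : Type} (D : Digraph V) (h : Q131.R4.NoR4 D.Adj) : ¬ ContainsR4 D := by
  rintro ⟨f, _, hf⟩
  exact h (f 0) (f 1) (f 2) (f 3) (hf _ _ (by simp [R4])) (hf _ _ (by simp [R4]))
    (hf _ _ (by simp [R4])) (hf _ _ (by simp [R4])) (hf _ _ (by simp [R4]))
    (hf _ _ (by simp [R4]))

theorem outDegree_eq {V : Type} [Fintype V] (D : Digraph V) (v : V) :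
    outDegree D v = Q131.R4.out D.Adj v := by
  classical
  rw [outDegree, Q131.R4.out, ← Set.ncard_coe_finset]
  congr 1
  ext w
  simp

theorem upper (m s : ℕ) (hs : s ∈ values m) : s ≤ Q131.R4.G m := by
  obtain ⟨D, hl, h4, rfl⟩ := hs
  have h := Q131.R4.upper D.Adj hl (noR4_of D hl h4)
  rw [Fintype.card_fin] at h
  simp only [outDegree_eq]
  exact h

/-- The pattern: `0, 1, 2` mutually joined in both directions, and all of them dominate `3`. -/
def B (i j : Fin 4) : Prop := i ≠ 3 ∧ i ≠ j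

instance : DecidableRel B := fun i j => inferInstanceAs (Decidable (i ≠ 3 ∧ i ≠ j))

theorem B_noR4 : Q131.R4.NoR4 B := by
  intro w x y z
  revert w x y z
  decide

theorem lower (s : Fin 4 → ℕ) (m : ℕ) (hm : ∑ i, s i = m) :
    (∑ i, s i * (∑ j, if B i j then s j else 0) ^ 2) ∈ values m := by
  classical
  have hc : Fintype.card (Σ i : Fin 4, Fin (s i)) = m := by
    rw [Fintype.card_sigma]
    simpa using hm
  let e : (Σ i : Fin 4, Fin (s i)) ≃ Fin m := Fintype.equivFinOfCardEq hc
  let D : Digraph (Fin m) := ⟨fun x y => B (e.symm x).1 (e.symm y).1⟩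
  refine ⟨D, ?_, ?_, ?_⟩
  · intro v hv
    exact hv.2 rfl
  · apply of_noR4
    intro w x y z h1 h2 h3 h4 h5 h6
    exact B_noR4 _ _ _ _ h1 h2 h3 h4 h5 h6
  · have hout : ∀ x : (Σ i : Fin 4, Fin (s i)), outDegree D (e x) =
        ∑ j, if B x.1 j then s j else 0 := by
      intro x
      have h1 : ({w | D.Adj (e x) w} : Set (Fin m)) =
          e '' (((univ : Finset (Fin 4)).filter (fun j => B x.1 j)).sigma
            (fun j => (univ : Finset (Fin (s j)))) : Finset (Σ i : Fin 4, Fin (s i))) := by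
        ext w
        simp only [Set.mem_ofPred_eq, Set.mem_image, SetLike.mem_coe, mem_sigma, mem_filter,
          mem_univ, true_and, and_true]
        constructor
        · intro h
          have h' : B (e.symm (e x)).1 (e.symm w).1 := h
          rw [Equiv.symm_apply_apply] at h'
          exact ⟨e.symm w, h', e.apply_symm_apply w⟩
        · rintro ⟨y, hy, rfl⟩
          show B (e.symm (e x)).1 (e.symm (e y)).1
          rw [Equiv.symm_apply_apply, Equiv.symm_apply_apply]
          exact hy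
      rw [outDegree, h1, Set.ncard_image_of_injective _ e.injective, Set.ncard_coe_finset,
        card_sigma, sum_filter]
      simp
    rw [← Equiv.sum_comp e]
    simp only [hout]
    rw [Fintype.sum_sigma]
    apply sum_congr rfl
    intro i _
    have hk : ∀ y ∈ (univ : Finset (Fin (s i))),
        (∑ j, if B (⟨i, y⟩ : Σ i : Fin 4, Fin (s i)).1 j then s j else 0) ^ 2 =
        (∑ j, if B i j then s j else 0) ^ 2 := fun _ _ => rfl
    rw [sum_congr rfl hk, sum_const, card_univ, Fintype.card_fin, smul_eq_mul]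

/-- **The degree-square Turán numbers of `R4`.**  For `m = 3q`, `3q + 1`, `3q + 2` the largest
sum of squares of out-degrees of an `R4`-free digraph on `m` vertices is `12 q ^ 3`,
`3 q (2 q + 1) ^ 2` and `2 (q + 1) (6 q ^ 2 + 6 q + 1)`. -/
theorem result (q : ℕ) :
    IsGreatest (values (3 * q)) (12 * q ^ 3) ∧
    IsGreatest (values (3 * q + 1)) (3 * q * (2 * q + 1) ^ 2) ∧
    IsGreatest (values (3 * q + 2)) (2 * (q + 1) * (6 * q ^ 2 + 6 * q + 1)) := by
  refine ⟨⟨?_, ?_⟩, ⟨?_, ?_⟩, ⟨?_, ?_⟩⟩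
  · have h := lower ![q, q, q, 0] (3 * q) (by simp [Fin.sum_univ_four]; ring)
    have e : (∑ i, (![q, q, q, 0] : Fin 4 → ℕ) i *
        (∑ j, if B i j then (![q, q, q, 0] : Fin 4 → ℕ) j else 0) ^ 2) = 12 * q ^ 3 := by
      simp [Fin.sum_univ_four, B]
      ring
    rw [e] at h
    exact h
  · intro s hs
    rw [← Q131.R4.G0]
    exact upper _ _ hs
  · have h := lower ![q, q, q, 1] (3 * q + 1) (by simp [Fin.sum_univ_four]; ring)
    have e : (∑ i, (![q, q, q, 1] : Fin 4 → ℕ) i *
        (∑ j, if B i j then (![q, q, q, 1] : Fin 4 → ℕ) j else 0) ^ 2) =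
        3 * q * (2 * q + 1) ^ 2 := by
      simp [Fin.sum_univ_four, B]
      ring
    rw [e] at h
    exact h
  · intro s hs
    rw [← Q131.R4.G1]
    exact upper _ _ hs
  · have h := lower ![q + 1, q + 1, q, 0] (3 * q + 2) (by simp [Fin.sum_univ_four]; ring)
    have e : (∑ i, (![q + 1, q + 1, q, 0] : Fin 4 → ℕ) i *
        (∑ j, if B i j then (![q + 1, q + 1, q, 0] : Fin 4 → ℕ) j else 0) ^ 2) =
        2 * (q + 1) * (6 * q ^ 2 + 6 * q + 1) := by
      simp [Fin.sum_univ_four, B]
      ring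
    rw [e] at h
    exact h
  · intro s hs
    rw [← Q131.R4.G2]
    exact upper _ _ hs

end Pool.Agent.Results.MP_be36ad_co.DegreeSquare
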